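import Pool.Agent.MP_83fd13_an.SCH.Own3

/-! Schiffer's conjecture is false, classical form: an explicit type of domain (the image of the
disc under an odd power series, invariant under the rotation by `2π/42`) and a classical
solution. -/

open Metric Set MeasureTheory
open scoped RealInnerProductSpace NNReal ComplexConjugate

namespace Pool.Agent.Results.MP_83fd13_an.ClassicalCounterexample

/-- The boundary of `Ω` is locally the graph of a Lipschitz function, `Ω` lying on one side. -/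
def LipschitzBoundary (Ω : Set ℂ) : Prop :=
  ∀ p ∈ frontier Ω, ∃ e f : ℂ, ‖e‖ = 1 ∧ ‖f‖ = 1 ∧ ⟪e, f⟫ = 0 ∧
    ∃ r : ℝ, 0 < r ∧ ∃ K : ℝ≥0, ∃ g : ℝ → ℝ, LipschitzWith K g ∧
      ∀ x ∈ ball p r, (x ∈ Ω ↔ g ⟪x, e⟫ < ⟪x, f⟫)

/-- Weak form of (S) with `λ = 1` and boundary value `c`: `G` is the gradient of `u`, the trace of
`u` is `c`, `-Δu = u` with vanishing Neumann data. -/
def WeakSolution (Ω : Set ℂ) (c : ℝ) (u : ℂ → ℝ) (G : ℂ → ℂ) : Prop :=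
  MemLp u 2 (volume.restrict Ω) ∧ MemLp G 2 (volume.restrict Ω) ∧
  (∀ η : ℂ → ℝ, ContDiff ℝ 1 η → HasCompactSupport η → ∀ v : ℂ,
    ∫ x in Ω, (u x - c) * (fderiv ℝ η x v) = - ∫ x in Ω, ⟪G x, v⟫ * η x) ∧
  ∀ η : ℂ → ℝ, ContDiff ℝ 1 η → HasCompactSupport η →
    ∫ x in Ω, fderiv ℝ η x (G x) = ∫ x in Ω, u x * η x

/-- Classical form of (S) with `λ = 1` and boundary value `c`: `u` and its gradient `G` are
continuous on the closure of `Ω`, `u = c` and `G = 0` on the boundary, and the divergence of `G`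
is `-u` in `Ω ∖ {0}`. -/
def ClassicalSolution (Ω : Set ℂ) (c : ℝ) (u : ℂ → ℝ) (G : ℂ → ℂ) : Prop :=
  ContinuousOn u (closure Ω) ∧ ContinuousOn G (closure Ω) ∧
  (∀ z ∈ Ω, HasFDerivAt u (innerSL ℝ (G z)) z) ∧
  (∀ z ∈ frontier Ω, u z = c ∧ G z = 0) ∧
  ∀ z ∈ Ω, z ≠ 0 → ∃ L : ℂ →L[ℝ] ℂ, HasFDerivAt G L z ∧ (L 1).re + (L Complex.I).im = - u z

theorem result : ∃ (ρ : ℝ) (a : ℕ → ℝ) (f : ℂ → ℂ) (Ω : Set ℂ) (c : ℝ) (u : ℂ → ℝ) (G : ℂ → ℂ),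
    54 < ρ ∧ ρ < 55 ∧ (Summable fun k => |a (k + 1)|) ∧ ∑' k, |a (k + 1)| ≤ 1 / 3 ∧
    ∑' k, |a (k + 2)| < |a 1| ∧
    (∀ w, f w = ρ * (w + ∑' k : ℕ, (a (k + 1) : ℂ) * w ^ (42 * (k + 1) + 1) /
      ((42 * (k + 1) + 1 : ℕ) : ℂ))) ∧
    Ω = f '' ball 0 1 ∧ frontier Ω = f '' sphere 0 1 ∧ InjOn f (closedBall 0 1) ∧
    IsOpen Ω ∧ Bornology.IsBounded Ω ∧ IsConnected Ω ∧ SimplyConnectedSpace Ω ∧
    Nonempty (frontier Ω ≃ₜ sphere (0 : ℂ) 1) ∧ LipschitzBoundary Ω ∧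
    (∀ ζ : ℂ, ζ ^ 42 = 1 → ∀ z ∈ Ω, ζ * z ∈ Ω) ∧ (∀ b r, Ω ≠ ball b r) ∧
    WeakSolution Ω c u G ∧ ClassicalSolution Ω c u G ∧ u 0 = 1 := by
  obtain ⟨ρ, a, c, hρ, h1, h2, h3, Ω, u, G, h⟩ := SCHT.schiffer_own
  exact ⟨ρ, a, SCHG.fF 42 ρ a, Ω, c, u, G, by have := hρ.1; linarith, by have := hρ.2; linarith,
    h1, h2, h3, fun w => rfl, h⟩

end Pool.Agent.Results.MP_83fd13_an.ClassicalCounterexample
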