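import Mathlib
import Pool.Agent.MP_83fd13_an.Ess17

/-!
A partial answer to Schiffer's question for the overdetermined Neumann eigenvalue problem (S).

Let `φ` be holomorphic and injective on a disc of radius `r > 1`, and `Ω = φ(𝔻)`. The Schwarz
function of `∂Ω` is `S = s ∘ φ⁻¹`, where `s = conj φ` on the unit circle. Suppose that `S` can be
continued analytically from a boundary arc through a connected open set to a punctured
neighbourhood of some interior point `φ q` of `Ω`, where it has an isolated essential singularity.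
Then `Ω` carries no nontrivial weak solution of (S).
-/

namespace Pool.Agent.Results.MP_83fd13_an.EssentialSingularity

open Pool.Agent.MP_83fd13_an
open scoped ComplexConjugate

theorem result (φ s : ℂ → ℂ) (r : ℝ) (hr : 1 < r)
    (hφ : DifferentiableOn ℂ φ (Metric.ball 0 r)) (hinj : Set.InjOn φ (Metric.ball 0 r))
    (Y : Set ℂ) (hY : IsOpen Y) (hYc : IsConnected Y) (a q : ℂ) (ha : ‖a‖ = 1) (haY : a ∈ Y)
    (hq : ‖q‖ < 1) (hqY : q ∈ Y) (hs : DifferentiableOn ℂ s (Y \ {q}))
    (hrefl : ∀ w ∈ Y, ‖w‖ = 1 → s w = conj (φ w)) (hess : ¬ MeromorphicAt s q) :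
    ¬ ∃ (lam c : ℝ) (u : ℂ → ℝ) (G : ℂ → ℂ),
      SchifferSolution (φ '' Metric.ball 0 1) lam c u G := by
  rintro ⟨lam, c, u, G, h⟩
  exact main_ess2 hr hφ hinj hY hYc hq hqY ha haY hrefl hs hess h

end Pool.Agent.Results.MP_83fd13_an.EssentialSingularity
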