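import Mathlib
import Pool.Agent.MP_83fd13_an.NFold10

/-!
A partial answer to Schiffer's question for the overdetermined Neumann eigenvalue problem (S):
domains with an `N`-fold rotational symmetry and solutions of low frequency.

Let `Ω` be a bounded plane domain contained in the closed disc of radius `R` about `0`, invariant
under the rotation by `2π/N` about `0` (`N ≥ 1`), with connected boundary of measure zero, and equal
to the interior of its closure (all of this holds for Lipschitz Jordan domains). If (S) has a
nontrivial solution on `Ω` with frequency `√lam` such that the Bessel function `J_N` has no zero in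
`(0, √lam * R]`, that is `√lam * R < j_{N,1}`, then `Ω` is a disc centred at `0`.
-/

namespace Pool.Agent.Results.MP_83fd13_an.NFoldLowFrequency

open Pool.Agent.MP_83fd13_an

/-- `J_N` is `Pool.Agent.MP_83fd13_an.NFold.besselJ N`, the Bessel function given by its power
series `∑ (-1)^k / (k! (k+N)!) (x/2)^(2k+N)`. -/
theorem result (Ω : Set ℂ) (N : ℕ) (lam c R : ℝ) (u : ℂ → ℝ) (G : ℂ → ℂ)
    (hO : IsOpen Ω) (hc : IsConnected Ω) (hfc : IsPreconnected (frontier Ω))
    (hreg : interior (closure Ω) = Ω) (hfr : MeasureTheory.volume (frontier Ω) = 0)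
    (hN : 1 ≤ N)
    (hrot : ∀ z ∈ Ω, Complex.exp ((2 * Real.pi / N : ℝ) * Complex.I) * z ∈ Ω)
    (hR : Ω ⊆ Metric.closedBall 0 R)
    (hpos : ∀ x : ℝ, 0 < x → x ≤ Real.sqrt lam * R → 0 < NFold.besselJ N x)
    (h : SchifferSolution Ω lam c u G) :
    ∃ ρ : ℝ, 0 < ρ ∧ Ω = Metric.ball 0 ρ :=
  NFold.main hO hc.nonempty hc.isPreconnected hfc hreg hfr hN hrot hR hpos h

end Pool.Agent.Results.MP_83fd13_an.NFoldLowFrequency
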