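import Mathlib
import Pool.Agent.MP_83fd13_an.Sp14

/-!
A partial answer to Schiffer's question for the overdetermined Neumann eigenvalue problem (S).

Let `φ` be holomorphic and injective on a disc of radius `r > 1`, and `Ω = φ(𝔻)`. The Schwarz
function of `∂Ω` is `S = s ∘ φ⁻¹`, where `s = conj φ` on the unit circle. Suppose that `s` is
continued analytically from a boundary arc through a connected open set `Y` which contains the
half-open segment from `p` to `q`, `|q| < 1`, and that it does not extend analytically to `q` along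
this segment (the singularity may be of any kind, isolated or not). If `Ω` carries a nontrivial weak
solution of (S) with eigenvalue `lam`, then `|(z - z₀) S(z)| > 5 / lam` for points `z = φ w` with `w` on
the segment arbitrarily near `q` (`z₀ = φ q`); and if `(z - z₀) S(z)` has a limit along the segment,
then this limit is `R ^ 2` for some `R > 0` with `J₁(√lam R) = 0`, written here as
`∑ (-(lam R ^ 2 / 4)) ^ n / (n! (n + 1)!) = 0`.
-/

namespace Pool.Agent.Results.MP_83fd13_an.SingularPointGrowth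

open Pool.Agent.MP_83fd13_an Filter
open scoped ComplexConjugate Topology

theorem result (φ s : ℂ → ℂ) (r : ℝ) (hr : 1 < r)
    (hφ : DifferentiableOn ℂ φ (Metric.ball 0 r)) (hinj : Set.InjOn φ (Metric.ball 0 r))
    (Y : Set ℂ) (hY : IsOpen Y) (hYc : IsConnected Y) (a : ℂ) (ha : ‖a‖ = 1) (haY : a ∈ Y)
    (hs : DifferentiableOn ℂ s Y) (hrefl : ∀ w ∈ Y, ‖w‖ = 1 → s w = conj (φ w))
    (p q : ℂ) (hq : ‖q‖ < 1) (hseg : ∀ x : ℝ, 0 < x → x ≤ 1 → q + (x : ℂ) * (p - q) ∈ Y)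
    (hsing : ¬ ∃ g : ℂ → ℂ, AnalyticAt ℂ g q ∧
      ∀ᶠ x : ℝ in 𝓝[>] 0, g (q + (x : ℂ) * (p - q)) = s (q + (x : ℂ) * (p - q)))
    (lam c : ℝ) (u : ℂ → ℝ) (G : ℂ → ℂ)
    (h : SchifferSolution (φ '' Metric.ball 0 1) lam c u G) :
    (∃ᶠ x : ℝ in 𝓝[>] 0,
      5 / lam < ‖(φ (q + (x : ℂ) * (p - q)) - φ q) * s (q + (x : ℂ) * (p - q))‖) ∧
    ∀ ρ : ℂ, Tendsto (fun x : ℝ => (φ (q + (x : ℂ) * (p - q)) - φ q) * s (q + (x : ℂ) * (p - q)))
        (𝓝[>] 0) (𝓝 ρ) →
      ∃ R : ℝ, 0 < R ∧ ρ = (R : ℂ) ^ 2 ∧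
        ∑' n : ℕ, (-(lam * R ^ 2 / 4)) ^ n / ((n.factorial : ℝ) * ((n + 1).factorial : ℝ)) = 0 :=
  ⟨main_sp2 hr hφ hinj hY hYc ha haY hrefl hs hq (fun x hx => hseg x hx.1 hx.2) hsing h,
    fun _ hρ => main_sp hr hφ hinj hY hYc ha haY hrefl hs hq (fun x hx => hseg x hx.1 hx.2)
      hsing hρ h⟩

end Pool.Agent.Results.MP_83fd13_an.SingularPointGrowth
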